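import Pool.Agent.helper69.DH.SpecR2

set_option autoImplicit false

open Filter Topology MeasureTheory
open scoped commutatorElement

namespace Pool.Agent.helper90.DH

open Pool.Agent.helper64.D2

open Classical in
theorem rHOT (hBAS : rBAS_stmt) : rHOT_stmt := by
  obtain ⟨b1, b2, _, _, b5, _, _, _, _, b10⟩ := hBAS
  intro P S hR D hOK s hsS
  obtain ⟨⟨hq1, _⟩, hT, _, _⟩ := hR
  have hemp : s < P.S1 → ∀ t, t ≤ s → D.H t = ∅ ∧ D.K t = ∅ := by
    intro hs t ht
    exact (hOK t (by omega)).1 (by omega)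
  have hrinH : s < P.S1 → ∀ (r z : ℝ), ¬ rin D.H r s z := by
    rintro hs r z ⟨t, ht, n, hn, _⟩
    rw [(hemp hs t ht).1] at hn
    simp at hn
  have hrinK : s < P.S1 → ∀ (r z : ℝ), ¬ rin D.K r s z := by
    rintro hs r z ⟨t, ht, n, hn, _⟩
    rw [(hemp hs t ht).2] at hn
    simp at hn
  have hrhp : s < P.S1 → ∀ (e : ℕ) (n : ℤ), rhp P D.H e s n = 0 := by
    intro hs e n
    unfold rhp
    rw [Finset.card_eq_zero, Finset.filter_eq_empty_iff]
    exact fun k _ => hrinH hs _ _
  have hrdg : s < P.S1 → ∀ (e : ℕ) (m : ℤ), rdg P D.K e s m = 0 := by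
    intro hs e m
    unfold rdg
    rw [Finset.card_eq_zero, Finset.filter_eq_empty_iff]
    exact fun k _ => hrinK hs _ _
  constructor
  · intro z hz1 hz2 hcold
    by_cases hs : s < P.S1
    · refine ⟨?_, ?_, ?_⟩
      · have : rAc D.H (3 * 2 ^ 30 - 8) s z = ∅ := by
          unfold rAc
          rw [Finset.filter_eq_empty_iff]
          rintro t ht ⟨n, hn, _⟩
          rw [(hemp hs t (by have := Finset.mem_range.1 ht; omega)).1] at hn
          simp at hn
        rw [this]
        norm_num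
      · unfold rT3
        simp only [hrhp hs, hrdg hs, Finset.sum_const_zero, mul_zero, add_zero]
        exact Nat.not_lt_zero _
      · rw [hT s hs]; simp
    · have hs' : P.S1 ≤ s := not_lt.1 hs
      obtain ⟨⟨hFH, _⟩, _⟩ := (hOK s (by omega)).2 hs'
      have hm := hFH (ci s z)
      have hnot : ¬ (ci s z ∈ P.T s ∨ rT2 D.H 0 s (ci s z) ∨ rT3 P D.H D.K 0 s (ci s z)) := by
        intro hc
        apply hcold s le_rfl
        rw [hm]
        refine ⟨b10 s z hz1 hz2, fun t ht => ?_, hc⟩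
        rw [← b2 s t z ht.le]
        exact hcold t ht.le
      push Not at hnot
      obtain ⟨n1, n2, n3⟩ := hnot
      refine ⟨?_, n3, n1⟩
      have n2' : (rAc D.H (rrh 0) s (rlp s (ci s z))).card < 2 ^ 38 := not_le.1 n2
      refine lt_of_le_of_lt (Finset.card_le_card ?_) n2'
      intro t ht
      unfold rAc at ht ⊢
      rw [Finset.mem_filter] at ht ⊢
      obtain ⟨ht1, n, hn, hn2⟩ := ht
      refine ⟨ht1, n, hn, ?_⟩
      have hts : t ≤ s := by have := Finset.mem_range.1 ht1; omega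
      obtain ⟨c1, c2, _⟩ := b1 s z
      have hd : |z - rlp s (ci s z)| ≤ 1 / 2 ^ s := by
        rw [abs_le]
        constructor
        · have : (0 : ℝ) ≤ 1 / 2 ^ s := by positivity
          linarith
        · linarith
      have h2 : (2 : ℝ) ^ t * |z - rlp s (ci s z)| ≤ 1 := by
        have h3 : (2 : ℝ) ^ t ≤ 2 ^ s := pow_le_pow_right₀ (by norm_num) hts
        calc (2 : ℝ) ^ t * |z - rlp s (ci s z)| ≤ 2 ^ s * (1 / 2 ^ s) := by gcongr
          _ = 1 := by field_simp
      have h4 : (2 : ℝ) ^ t * rlp s (ci s z) - n = (2 ^ t * z - n) - 2 ^ t * (z - rlp s (ci s z)) := by ring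
      rw [h4]
      calc |(2 ^ t * z - (n : ℝ)) - 2 ^ t * (z - rlp s (ci s z))| ≤ |2 ^ t * z - (n : ℝ)| + |2 ^ t * (z - rlp s (ci s z))| := abs_sub _ _
        _ ≤ (3 * 2 ^ 30 - 8) + 1 := by
            apply add_le_add hn2
            rw [abs_mul, abs_of_pos (by positivity : (0 : ℝ) < 2 ^ t)]
            exact h2
        _ ≤ rrh 0 := by unfold rrh; norm_num
  · intro n hn hcold
    by_cases hs : s < P.S1
    · unfold rCR
      intro hc
      have h0 : ((Finset.range P.q).filter (fun k => rin D.H (rrh 0) s (rlp s (rbb P s k n)) ∨ P.q ≤ 3000 * rdg P D.K 0 s (rbb P s k n))).card = 0 := by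
        rw [Finset.card_eq_zero, Finset.filter_eq_empty_iff]
        rintro k _ (h | h)
        · exact hrinH hs _ _ h
        · rw [hrdg hs] at h
          omega
      rw [h0] at hc
      omega
    · have hs' : P.S1 ≤ s := not_lt.1 hs
      obtain ⟨⟨_, hFK⟩, _⟩ := (hOK s (by omega)).2 hs'
      intro hc
      have h1 := hcold s le_rfl
      rw [(b5 s n).2] at h1
      apply h1
      rw [hFK n]
      exact ⟨hn, fun t ht => hcold t ht.le, hc⟩

end Pool.Agent.helper90.DH
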